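import Mathlib

/-!
# A certificate: the holes of a graph on sixteen vertices
-/

namespace Q109.K34

/-- adjacency lists -/
def adjL : List (List ℕ) :=
  [[1, 2, 9, 10, 15],
   [0, 9, 11],
   [0, 9, 13],
   [4, 5, 11, 12, 15],
   [3, 5, 11, 14],
   [3, 4, 10, 11, 12],
   [7, 8, 12, 13, 14],
   [6, 8, 9, 13, 14, 15],
   [6, 7, 9, 13, 14, 15],
   [0, 1, 2, 7, 8, 10],
   [0, 5, 9],
   [1, 3, 4, 5, 12],
   [3, 5, 6, 11],
   [2, 6, 7, 8, 14],
   [4, 6, 7, 8, 13],
   [0, 3, 7, 8]]

/-- the codes of the holes -/
def holes : List ℕ :=
  [
   3107, 3618, 5856, 5984, 6850, 6978, 8836, 8964, 13413, 13924, 14407, 14918, 18096, 18224,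
   19090, 19218, 20568, 20592, 22608, 25653, 26164, 26647, 27158, 33409, 33537, 33833, 34472,
   34600, 34827, 35466, 35594, 37064, 37192, 38113, 38241, 39107, 39235, 41093, 41221, 45133,
   49304, 49432, 50353, 50481, 51347, 51475, 57373]

/-- codes of disconnected two-regular induced subgraphs, each with the code of a component -/
def disc : List (ℕ × ℕ) :=
  [
   (504, 56), (571, 515), (573, 517), (952, 56), (2520, 2072), (2536, 2088), (2544, 2096),
   (2589, 517), (2605, 517), (2613, 517), (2968, 2072), (2984, 2088), (2992, 2096),
   (3555, 3107), (3609, 1537), (4651, 515), (4653, 517), (5032, 4136), (6669, 517),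
   (6693, 517), (7048, 6152), (7072, 6176), (7689, 1537), (8440, 56), (8568, 56), (8632, 56),
   (8892, 8836), (9020, 8964), (10456, 2072), (10472, 2088), (10480, 2096), (10584, 2072),
   (10600, 2088), (10608, 2096), (10648, 2072), (10664, 2088), (10672, 2096), (10908, 8836),
   (10924, 8836), (10932, 8836), (11036, 8964), (11052, 8964), (11060, 8964), (11491, 3107),
   (11619, 3107), (11683, 3107), (12712, 4136), (12972, 8836), (13100, 8964), (14728, 6152),
   (14752, 6176), (14988, 8836), (15012, 8836), (15116, 8964), (15140, 8964), (18664, 2088),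
   (18792, 2088), (18856, 2088), (19683, 3107), (19811, 3107), (19875, 3107), (20904, 4136),
   (21083, 515), (21085, 517), (21107, 515), (21109, 517), (22105, 1537), (22920, 6152),
   (22944, 6176), (23125, 517), (24145, 1537), (25155, 515), (26177, 1537), (26728, 2088),
   (26792, 2088), (26920, 2088), (27747, 3107), (27811, 3107), (27939, 3107), (28258, 3618),
   (28840, 4136), (28968, 4136), (30856, 6152), (30880, 6176), (30984, 6152), (31008, 6176),
   (35248, 2096), (35505, 33409), (35633, 33537), (39328, 6176), (39585, 33409),
   (39713, 33537), (43189, 41093), (43317, 41221), (47269, 41093), (47397, 41221),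
   (58473, 33833), (59467, 34827)]

/-- codes of the triangles and of the empty set -/
def small : List ℕ :=
  [
   0, 56, 448, 515, 517, 896, 1537, 2072, 2088, 2096, 4136, 6152, 6176, 8384, 8512, 8576,
   16576, 16704, 16768, 24640, 24704, 24832, 33152]

/-- codes of the non-adjacent pairs -/
def nonadj : List ℕ :=
  [
   9, 17, 33, 65, 129, 257, 2049, 4097, 8193, 16385, 6, 10, 18, 34, 66, 130, 258, 1026, 4098,
   8194, 16386, 32770, 12, 20, 36, 68, 132, 260, 1028, 2052, 4100, 16388, 32772, 72, 136, 264,
   520, 1032, 8200, 16392, 80, 144, 272, 528, 1040, 4112, 8208, 32784, 96, 160, 288, 544,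
   8224, 16416, 32800, 576, 1088, 2112, 32832, 1152, 2176, 4224, 1280, 2304, 4352, 2560, 4608,
   8704, 16896, 33280, 3072, 5120, 9216, 17408, 33792, 10240, 18432, 34816, 12288, 20480,
   36864, 40960, 49152]

/-- bit test -/
def bt (S j : ℕ) : Bool := Nat.beq (Nat.mod (Nat.shiftRight S j) 2) 1

theorem shift_mod (S j : ℕ) : Nat.mod (Nat.shiftRight S j) 2 = S / 2 ^ j % 2 := by
  rw [← Nat.shiftRight_eq_div_pow]; rfl

theorem bt_eq (S j : ℕ) : bt S j = S.testBit j := by
  rw [bt, shift_mod, Nat.testBit_eq_decide_div_mod_eq]
  by_cases h1 : S / 2 ^ j % 2 = 1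
  · simp [h1]
  · have : Nat.beq (S / 2 ^ j % 2) 1 = false := by
      rw [Bool.eq_false_iff]
      intro h2
      exact h1 (Nat.eq_of_beq_eq_true h2)
    simp [h1, this]

/-- number of neighbours in the coded set -/
def cnt (S : ℕ) : List ℕ → ℕ → ℕ
  | [], c => c
  | j :: l, c => cnt S l (Nat.add c (Nat.mod (Nat.shiftRight S j) 2))

theorem cnt_eq (S : ℕ) : ∀ (l : List ℕ) (c : ℕ),
    cnt S l c = c + (l.filter (fun j => S.testBit j)).length := by
  intro l
  induction l with
  | nil => intro c; simp [cnt]
  | cons j l ih =>
    intro c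
    rw [cnt, ih, shift_mod, List.filter_cons]
    have h : S.testBit j = decide (S / 2 ^ j % 2 = 1) := Nat.testBit_eq_decide_div_mod_eq
    have hadd : Nat.add c (S / 2 ^ j % 2) = c + S / 2 ^ j % 2 := rfl
    rw [hadd]
    by_cases h1 : S / 2 ^ j % 2 = 1
    · rw [h, h1]; simp; omega
    · have h0 : S / 2 ^ j % 2 = 0 := by omega
      rw [h, h0]; simp

/-- all members of the coded set have two neighbours in it -/
def reg2 (S : ℕ) : List (List ℕ) → ℕ → Bool
  | [], _ => true
  | l :: ls, i =>
    match bt S i with
    | false => reg2 S ls (Nat.succ i)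
    | true => match Nat.beq (cnt S l 0) 2 with
      | false => false
      | true => reg2 S ls (Nat.succ i)

theorem reg2_of (S : ℕ) : ∀ (ls : List (List ℕ)) (i : ℕ),
    (∀ k (hk : k < ls.length), S.testBit (i + k) = true →
      ((ls[k]).filter (fun j => S.testBit j)).length = 2) → reg2 S ls i = true := by
  intro ls
  induction ls with
  | nil => intro i _; rfl
  | cons l ls ih =>
    intro i h
    have hrec : reg2 S ls (Nat.succ i) = true := by
      apply ih
      intro k hk hb
      have := h (k + 1) (by simpa using hk)
        (by rw [← hb]; congr 1; simp only [Nat.succ_eq_add_one]; omega)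
      simpa using this
    rw [reg2, bt_eq]
    cases hb : S.testBit i with
    | false => exact hrec
    | true =>
      have h0 := h 0 (by simp) (by simpa using hb)
      have hc : Nat.beq (cnt S l 0) 2 = true := by
        rw [cnt_eq]
        simp only [List.getElem_cons_zero] at h0
        rw [h0]
        rfl
      simp only [hc]
      exact hrec

def isOK (S : ℕ) : Bool :=
  match reg2 S adjL 0 with
  | false => true
  | true => holes.contains S || small.contains S || disc.any (fun p => Nat.beq p.1 S)

def allBelow : ℕ → ℕ → Bool
  | 0, acc => isOK acc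
  | k + 1, acc => allBelow k (2 * acc) && allBelow k (2 * acc + 1)

theorem allBelow_sound : ∀ (k acc : ℕ), allBelow k acc = true →
    ∀ m, m < 2 ^ k → isOK (acc * 2 ^ k + m) = true := by
  intro k
  induction k with
  | zero =>
    intro acc h m hm
    have : m = 0 := by simpa using hm
    subst this
    simpa [allBelow] using h
  | succ k ih =>
    intro acc h m hm
    rw [allBelow, Bool.and_eq_true] at h
    rw [pow_succ] at hm
    rcases lt_or_ge m (2 ^ k) with h1 | h1
    · have := ih (2 * acc) h.1 m h1
      have e : acc * 2 ^ (k + 1) + m = 2 * acc * 2 ^ k + m := by ring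
      rw [e]; exact this
    · have := ih (2 * acc + 1) h.2 (m - 2 ^ k) (by omega)
      have e : acc * 2 ^ (k + 1) + m = (2 * acc + 1) * 2 ^ k + (m - 2 ^ k) := by
        have : m = 2 ^ k + (m - 2 ^ k) := by omega
        rw [pow_succ]
        nlinarith
      rw [e]; exact this

theorem check : allBelow 16 0 = true := by decide +kernel

theorem isOK_all (S : ℕ) (hS : S < 2 ^ 16) : isOK S = true := by
  have := allBelow_sound 16 0 check S hS
  simpa using this

/-- the triples of holes: the sum modulo two is not zero, and is not a non-adjacent pair equal to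
the intersection -/
def tripleOK (a b c : ℕ) : Bool :=
  match Nat.beq (Nat.xor (Nat.xor a b) c) 0 with
  | true => false
  | false => match Nat.beq (Nat.xor (Nat.xor a b) c) (Nat.land (Nat.land a b) c) with
    | false => true
    | true => !(nonadj.contains (Nat.xor (Nat.xor a b) c))

theorem triples : (holes.all fun a => holes.all fun b => holes.all fun c => tripleOK a b c) =
    true := by
  decide +kernel

/-- the components in `disc` are closed -/
def closedOK (p : ℕ × ℕ) : Bool :=
  (List.range 16).all fun i => !(p.2.testBit i) ||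
    (p.1.testBit i && (adjL.getD i []).all fun j => !(p.1.testBit j) || p.2.testBit j)

theorem disc_closed : (disc.all fun p => closedOK p &&
    ((List.range 16).any fun i => p.2.testBit i) &&
    ((List.range 16).any fun i => p.1.testBit i && !(p.2.testBit i))) = true := by
  decide +kernel

theorem small_small : (small.all fun S => decide (((List.range 16).filter
    (fun i => S.testBit i)).length ≤ 3)) = true := by
  decide +kernel

theorem adj_bounds : (adjL.all fun l => (l.all fun j => decide (j < 16)) && decide l.Nodup) =
    true := by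
  decide +kernel

theorem adj_symm : ∀ i j : Fin 16, (adjL.getD i.1 []).contains j.1 =
    (adjL.getD j.1 []).contains i.1 := by
  decide +kernel

theorem adj_irrefl : ∀ i : Fin 16, (adjL.getD i.1 []).contains i.1 = false := by
  decide +kernel

end Q109.K34
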