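import Pool.Agent.Q109.K34.Data

/-!
# The graph on sixteen vertices has no theta and no prism
-/

namespace Q109.K34

open SimpleGraph

/-- the graph -/
def G : SimpleGraph (Fin 16) where
  Adj i j := (adjL.getD i.1 []).contains j.1 = true
  symm := ⟨fun i j h => by rw [← adj_symm]; exact h⟩
  loopless := ⟨fun i h => by rw [adj_irrefl] at h; exact absurd h (by simp)⟩

instance : DecidableRel G.Adj := fun i j =>
  inferInstanceAs (Decidable ((adjL.getD i.1 []).contains j.1 = true))

open Classical in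
/-- the code of a set of vertices -/
noncomputable def code (S : Set (Fin 16)) : ℕ := Nat.ofBits (fun i : Fin 16 => decide (i ∈ S))

theorem code_lt (S : Set (Fin 16)) : code S < 2 ^ 16 := Nat.ofBits_lt_two_pow _

theorem testBit_code (S : Set (Fin 16)) (i : Fin 16) : (code S).testBit i.1 = true ↔ i ∈ S := by
  classical
  rw [code, Nat.testBit_ofBits_lt _ _ i.2]
  simp

theorem testBit_code_ge (S : Set (Fin 16)) (i : ℕ) (h : 16 ≤ i) :
    (code S).testBit i = false := by
  rw [code, Nat.testBit_ofBits_ge _ _ h]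

theorem code_ext {S : Set (Fin 16)} {m : ℕ} (hm : m < 2 ^ 16)
    (h : ∀ i : Fin 16, i ∈ S ↔ m.testBit i.1 = true) : code S = m := by
  apply Nat.eq_of_testBit_eq
  intro i
  by_cases hi : i < 16
  · have h1 := (testBit_code S ⟨i, hi⟩).trans (h ⟨i, hi⟩)
    exact Bool.eq_iff_iff.mpr h1
  · rw [testBit_code_ge S i (by omega)]
    symm
    exact Nat.testBit_lt_two_pow (lt_of_lt_of_le hm (Nat.pow_le_pow_right (by norm_num)
      (by omega)))

/-- the list of neighbours of `v` inside `S` has the right length -/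
theorem length_filter (S : Set (Fin 16)) (v : Fin 16) :
    ((adjL.getD v.1 []).filter (fun j => (code S).testBit j)).length =
      {w | w ∈ S ∧ G.Adj v w}.ncard := by
  classical
  have hb := adj_bounds
  rw [List.all_eq_true] at hb
  have hmem : adjL.getD v.1 [] ∈ adjL := by
    have h16 : adjL.length = 16 := by decide
    rw [List.getD_eq_getElem _ _ (by rw [h16]; exact v.2)]
    exact List.getElem_mem _
  have hv := hb _ hmem
  rw [Bool.and_eq_true, List.all_eq_true, decide_eq_true_eq] at hv
  have hnd := hv.2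
  have hlt : ∀ j ∈ adjL.getD v.1 [], j < 16 := fun j hj => by simpa using hv.1 j hj
  set l := (adjL.getD v.1 []).filter (fun j => (code S).testBit j) with hl
  have hlnd : l.Nodup := hnd.filter _
  rw [← List.toFinset_card_of_nodup hlnd]
  have : (l.toFinset : Set ℕ) = Fin.val '' {w | w ∈ S ∧ G.Adj v w} := by
    ext j
    simp only [List.coe_toFinset, Set.mem_ofPred_eq, hl, List.mem_filter, Set.mem_image]
    constructor
    · rintro ⟨h1, h2⟩
      refine ⟨⟨j, hlt j h1⟩, ⟨(testBit_code S ⟨j, hlt j h1⟩).mp h2, ?_⟩, rfl⟩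
      change (adjL.getD v.1 []).contains j = true
      rw [List.contains_iff_mem]
      exact h1
    · rintro ⟨w, ⟨h1, h2⟩, rfl⟩
      refine ⟨?_, (testBit_code S w).mpr h1⟩
      have h3 : (adjL.getD v.1 []).contains w.1 = true := h2
      rwa [List.contains_iff_mem] at h3
  rw [← Set.ncard_image_of_injective _ Fin.val_injective, ← this, Set.ncard_coe_finset]

/-- a hole in a graph -/
def IsHole {V : Type} (G : SimpleGraph V) (S : Set V) : Prop :=
  ∃ n, 4 ≤ n ∧ Nonempty (G.induce S ≃g cycleGraph n)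

theorem hole_deg {S : Set (Fin 16)} (h : IsHole G S) (v : Fin 16) (hv : v ∈ S) :
    {w | w ∈ S ∧ G.Adj v w}.ncard = 2 := by
  classical
  obtain ⟨n, hn, ⟨e⟩⟩ := h
  obtain ⟨k, rfl⟩ : ∃ k, n = k + 3 := ⟨n - 3, by omega⟩
  have h1 : (cycleGraph (k + 3)).degree (e ⟨v, hv⟩) = 2 := cycleGraph_degree_three_le
  rw [← card_neighborFinset_eq_degree, ← Set.ncard_coe_finset, coe_neighborFinset] at h1
  rw [← h1]
  refine Set.ncard_congr (fun w hw => e ⟨w, hw.1⟩) ?_ ?_ ?_
  · intro w hw
    rw [mem_neighborSet]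
    exact e.map_adj_iff.mpr hw.2
  · intro a b ha hb hab
    have := e.injective hab
    simpa using this
  · intro b hb
    rw [mem_neighborSet] at hb
    refine ⟨(e.symm b).1, ⟨(e.symm b).2, ?_⟩, ?_⟩
    · have h2 : (cycleGraph (k + 3)).Adj (e ⟨v, hv⟩) (e (e.symm b)) := by
        rw [e.apply_symm_apply]; exact hb
      exact e.map_adj_iff.mp h2
    · exact e.apply_symm_apply b

theorem hole_card {S : Set (Fin 16)} (h : IsHole G S) : 4 ≤ S.ncard := by
  obtain ⟨n, hn, ⟨e⟩⟩ := h
  have : Nat.card S = Nat.card (Fin n) := Nat.card_congr e.toEquiv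
  rw [Nat.card_coe_set_eq, Nat.card_fin] at this
  omega

theorem hole_conn {S : Set (Fin 16)} (h : IsHole G S) (C : Set (Fin 16)) (hCS : C ⊆ S)
    (hne : C.Nonempty) (hcl : ∀ u ∈ C, ∀ w ∈ S, G.Adj u w → w ∈ C) : C = S := by
  obtain ⟨n, hn, ⟨e⟩⟩ := h
  have hconn : (G.induce S).Connected := by
    obtain ⟨k, rfl⟩ : ∃ k, n = k + 1 := ⟨n - 1, by omega⟩
    exact (Iso.connected_iff e).mpr cycleGraph_connected
  obtain ⟨c, hc⟩ := hne
  apply Set.Subset.antisymm hCS
  intro w hw
  obtain ⟨p⟩ := hconn.preconnected ⟨c, hCS hc⟩ ⟨w, hw⟩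
  have key : ∀ (x y : S), (G.induce S).Walk x y → x.1 ∈ C → y.1 ∈ C := by
    intro x y p
    induction p with
    | nil => intro h; exact h
    | cons hadj _ ih =>
      intro hx
      exact ih (hcl _ hx _ (Subtype.mem _) hadj)
  exact key _ _ p hc

theorem ncard_code (S : Set (Fin 16)) :
    ((List.range 16).filter (fun i => (code S).testBit i)).length = S.ncard := by
  classical
  set l := (List.range 16).filter (fun i => (code S).testBit i) with hl
  have hlnd : l.Nodup := List.nodup_range.filter _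
  rw [← List.toFinset_card_of_nodup hlnd]
  have : (l.toFinset : Set ℕ) = Fin.val '' S := by
    ext j
    simp only [List.coe_toFinset, Set.mem_ofPred_eq, hl, List.mem_filter, Set.mem_image,
      List.mem_range]
    constructor
    · rintro ⟨h1, h2⟩
      exact ⟨⟨j, h1⟩, (testBit_code S ⟨j, h1⟩).mp h2, rfl⟩
    · rintro ⟨w, h1, rfl⟩
      exact ⟨w.2, (testBit_code S w).mpr h1⟩
  rw [← Set.ncard_image_of_injective _ Fin.val_injective, ← this, Set.ncard_coe_finset]

theorem code_mem_holes {S : Set (Fin 16)} (h : IsHole G S) : code S ∈ holes := by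
  classical
  have h1 := isOK_all (code S) (code_lt S)
  have hreg : reg2 (code S) adjL 0 = true := by
    apply reg2_of
    intro k hk hb
    have h16 : adjL.length = 16 := by decide
    have hk16 : k < 16 := by omega
    rw [zero_add] at hb
    have hb' := (testBit_code S ⟨k, hk16⟩).mp hb
    have h2 := length_filter S ⟨k, hk16⟩
    rw [hole_deg h _ hb'] at h2
    have h3 : adjL.getD k [] = adjL[k] := List.getD_eq_getElem _ _ hk
    simp only [h3] at h2
    exact h2
  rw [isOK, hreg] at h1
  simp only [Bool.or_eq_true, List.contains_iff_mem] at h1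
  rcases h1 with (h1 | h1) | h1
  · exact h1
  · exfalso
    have h2 := small_small
    rw [List.all_eq_true] at h2
    have h3 := h2 _ h1
    rw [decide_eq_true_eq, ncard_code] at h3
    have := hole_card h
    omega
  · exfalso
    rw [List.any_eq_true] at h1
    obtain ⟨p, hp, hpe⟩ := h1
    have hpe' : p.1 = code S := Nat.eq_of_beq_eq_true hpe
    have h2 := disc_closed
    rw [List.all_eq_true] at h2
    have h3 := h2 p hp
    simp only [Bool.and_eq_true, List.any_eq_true, List.mem_range, Bool.not_eq_true'] at h3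
    obtain ⟨⟨hcl, i, hi, hi2⟩, j, hj, hj1, hj2⟩ := h3
    rw [closedOK, List.all_eq_true] at hcl
    set C : Set (Fin 16) := {w | p.2.testBit w.1 = true} with hC
    have hcl' : ∀ u ∈ C, u ∈ S ∧ ∀ w ∈ S, G.Adj u w → w ∈ C := by
      intro u hu
      have h4 := hcl u.1 (List.mem_range.mpr u.2)
      have hu' : p.2.testBit u.1 = true := hu
      rw [hu', hpe'] at h4
      simp only [Bool.not_true, Bool.false_or, Bool.and_eq_true, List.all_eq_true] at h4
      refine ⟨(testBit_code S u).mp h4.1, ?_⟩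
      intro w hw hadj
      have hadj' : (adjL.getD u.1 []).contains w.1 = true := hadj
      rw [List.contains_iff_mem] at hadj'
      have h5 := h4.2 w.1 hadj'
      rw [(testBit_code S w).mpr hw] at h5
      have h6 : p.2.testBit w.1 = true := by simpa using h5
      exact h6
    have heq := hole_conn h C (fun u hu => (hcl' u hu).1) ⟨⟨i, hi⟩, hi2⟩
      (fun u hu => (hcl' u hu).2)
    have hjS : (⟨j, hj⟩ : Fin 16) ∈ S := (testBit_code S ⟨j, hj⟩).mp (by rw [← hpe']; exact hj1)
    rw [← heq] at hjS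
    have : p.2.testBit j = true := hjS
    rw [hj2] at this
    exact absurd this (by simp)

open Classical in
theorem testBit_union (S T : Set (Fin 16)) (i : ℕ) (hi : i < 16) :
    (code (S ∪ T)).testBit i =
      (decide ((⟨i, hi⟩ : Fin 16) ∈ S) || decide ((⟨i, hi⟩ : Fin 16) ∈ T)) := by
  rw [code, Nat.testBit_ofBits_lt _ _ hi]
  simp [Set.mem_union]

theorem bool_prism : ∀ p q r : Bool, (p && q) = false → (p && r) = false →
    (q && r) = false → (((p || q) ^^ (p || r)) ^^ (q || r)) = false := by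
  decide

theorem bool_theta : ∀ p q r s : Bool, (p && q) = s → (p && r) = s →
    (q && r) = s → (((p || q) ^^ (p || r)) ^^ (q || r)) = s ∧
      (((p || q) && (p || r)) && (q || r)) = s := by
  decide

/-- no prism-like triple -/
theorem no_prism (P Q R : Set (Fin 16)) (hPQ : Disjoint P Q) (hPR : Disjoint P R)
    (hQR : Disjoint Q R) (h1 : IsHole G (P ∪ Q)) (h2 : IsHole G (P ∪ R))
    (h3 : IsHole G (Q ∪ R)) : False := by
  classical
  have t := triples
  rw [List.all_eq_true] at t
  have t1 := t _ (code_mem_holes h1)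
  rw [List.all_eq_true] at t1
  have t2 := t1 _ (code_mem_holes h2)
  rw [List.all_eq_true] at t2
  have t3 := t2 _ (code_mem_holes h3)
  have hx : Nat.xor (Nat.xor (code (P ∪ Q)) (code (P ∪ R))) (code (Q ∪ R)) = 0 := by
    change (code (P ∪ Q) ^^^ code (P ∪ R)) ^^^ code (Q ∪ R) = 0
    apply Nat.eq_of_testBit_eq
    intro i
    rw [Nat.testBit_xor, Nat.testBit_xor, Nat.zero_testBit]
    by_cases hi : i < 16
    · rw [testBit_union _ _ i hi, testBit_union _ _ i hi, testBit_union _ _ i hi]
      rw [Set.disjoint_left] at hPQ hPR hQR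
      apply bool_prism
      · rw [← Bool.decide_and, decide_eq_false_iff_not]
        exact fun h => hPQ h.1 h.2
      · rw [← Bool.decide_and, decide_eq_false_iff_not]
        exact fun h => hPR h.1 h.2
      · rw [← Bool.decide_and, decide_eq_false_iff_not]
        exact fun h => hQR h.1 h.2
    · rw [testBit_code_ge _ _ (by omega), testBit_code_ge _ _ (by omega),
        testBit_code_ge _ _ (by omega)]
      rfl
  rw [tripleOK, hx] at t3
  exact absurd t3 (by simp)

theorem pair_mem : ∀ a b : Fin 16, a ≠ b → ¬ G.Adj a b →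
    (2 ^ a.1 + 2 ^ b.1) ∈ nonadj := by
  decide +kernel

theorem pair_bits : ∀ a b : Fin 16, a ≠ b → 2 ^ a.1 + 2 ^ b.1 < 2 ^ 16 ∧
    ∀ i : Fin 16, (i = a ∨ i = b) ↔ (2 ^ a.1 + 2 ^ b.1).testBit i.1 = true := by
  decide +kernel

/-- no theta-like triple -/
theorem no_theta (P Q R : Set (Fin 16)) (a b : Fin 16) (hab : a ≠ b) (hnadj : ¬ G.Adj a b)
    (hPQ : P ∩ Q = {a, b}) (hPR : P ∩ R = {a, b}) (hQR : Q ∩ R = {a, b})
    (h1 : IsHole G (P ∪ Q)) (h2 : IsHole G (P ∪ R)) (h3 : IsHole G (Q ∪ R)) : False := by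
  classical
  have t := triples
  rw [List.all_eq_true] at t
  have t1 := t _ (code_mem_holes h1)
  rw [List.all_eq_true] at t1
  have t2 := t1 _ (code_mem_holes h2)
  rw [List.all_eq_true] at t2
  have t3 := t2 _ (code_mem_holes h3)
  have hpair := pair_mem a b hab hnadj
  have hcode : code {a, b} = 2 ^ a.1 + 2 ^ b.1 :=
    code_ext (pair_bits a b hab).1 (fun i => by
      rw [Set.mem_insert_iff, Set.mem_singleton_iff]; exact (pair_bits a b hab).2 i)
  have hT : ∀ i : ℕ, ∀ hi : i < 16,
      ((((code (P ∪ Q)).testBit i) ^^ ((code (P ∪ R)).testBit i)) ^^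
        ((code (Q ∪ R)).testBit i)) = (code {a, b}).testBit i ∧
      ((((code (P ∪ Q)).testBit i) && ((code (P ∪ R)).testBit i)) &&
        ((code (Q ∪ R)).testBit i)) = (code {a, b}).testBit i := by
    intro i hi
    rw [testBit_union _ _ i hi, testBit_union _ _ i hi, testBit_union _ _ i hi]
    have e := testBit_code {a, b} ⟨i, hi⟩
    apply bool_theta
    · rw [← Bool.decide_and, Bool.eq_iff_iff, decide_eq_true_eq, e, ← hPQ]; rfl
    · rw [← Bool.decide_and, Bool.eq_iff_iff, decide_eq_true_eq, e, ← hPR]; rfl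
    · rw [← Bool.decide_and, Bool.eq_iff_iff, decide_eq_true_eq, e, ← hQR]; rfl
  have hx : Nat.xor (Nat.xor (code (P ∪ Q)) (code (P ∪ R))) (code (Q ∪ R)) = code {a, b} := by
    change (code (P ∪ Q) ^^^ code (P ∪ R)) ^^^ code (Q ∪ R) = _
    apply Nat.eq_of_testBit_eq
    intro i
    rw [Nat.testBit_xor, Nat.testBit_xor]
    by_cases hi : i < 16
    · exact (hT i hi).1
    · rw [testBit_code_ge _ _ (by omega), testBit_code_ge _ _ (by omega),
        testBit_code_ge _ _ (by omega), testBit_code_ge _ _ (by omega)]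
      rfl
  have hy : Nat.land (Nat.land (code (P ∪ Q)) (code (P ∪ R))) (code (Q ∪ R)) =
      code {a, b} := by
    change (code (P ∪ Q) &&& code (P ∪ R)) &&& code (Q ∪ R) = _
    apply Nat.eq_of_testBit_eq
    intro i
    rw [Nat.testBit_and, Nat.testBit_and]
    by_cases hi : i < 16
    · exact (hT i hi).2
    · rw [testBit_code_ge _ _ (by omega), testBit_code_ge _ _ (by omega),
        testBit_code_ge _ _ (by omega), testBit_code_ge _ _ (by omega)]
      rfl
  rw [tripleOK, hx, hy, hcode] at t3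
  have hne0 : Nat.beq (2 ^ a.1 + 2 ^ b.1) 0 = false := by
    rw [Bool.eq_false_iff]
    intro h0
    have h1 := Nat.eq_of_beq_eq_true h0
    have h2 : 0 < 2 ^ a.1 + 2 ^ b.1 := by positivity
    exact absurd h1 h2.ne'
  have heq : Nat.beq (2 ^ a.1 + 2 ^ b.1) (2 ^ a.1 + 2 ^ b.1) = true := Nat.beq_refl _
  rw [hne0] at t3
  simp only [heq, Bool.not_eq_true'] at t3
  have h5 : nonadj.contains (2 ^ a.1 + 2 ^ b.1) = true := List.contains_iff_mem.mpr hpair
  rw [h5] at t3
  exact absurd t3 (by simp)

end Q109.K34
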